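import Mathlib
import Pool.Agent.Helper50.BG.Up

/-! Zero sets of weighted Bergman spaces of equal index: for all `p < q`. -/

set_option autoImplicit false

namespace Pool.Agent.Results.MP_2b4eae_an.Full

open Metric Set MeasureTheory Filter Topology

/-- The weighted Bergman space `A^p_α` of the unit disc: `f` is holomorphic in the disc and
`∫_𝔻 |f(z)|^p (1 - |z|)^α dA(z) < ∞`, with `dA` the planar Lebesgue measure. -/
def Bergman (p α : ℝ) : Set (ℂ → ℂ) :=
  {f | DifferentiableOn ℂ f (ball (0 : ℂ) 1) ∧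
    ∫⁻ z in ball (0 : ℂ) 1, ENNReal.ofReal (‖f z‖ ^ p * (1 - ‖z‖) ^ α) < ⊤}

/-- `Z = (Z i)_{i ∈ ι}` (points repeated according to multiplicity) is a zero set of `A^p_α`: all
points lie in the disc and there is `f ∈ A^p_α`, not identically zero, such that the order of `f`
at every point `z` of the disc is the number of indices `i` with `Z i = z`. -/
def IsZeroSet (p α : ℝ) {ι : Type} (Z : ι → ℂ) : Prop :=
  (∀ i, Z i ∈ ball (0 : ℂ) 1) ∧
    ∃ f ∈ Bergman p α, (∃ z ∈ ball (0 : ℂ) 1, f z ≠ 0) ∧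
      ∀ z ∈ ball (0 : ℂ) 1, analyticOrderAt f z = {i | Z i = z}.encard

/-- a divisor with countable infinite support is given by a sequence -/
theorem exists_seq (m : ℂ → ℕ) (hc : {z | z ∈ ball (0 : ℂ) 1 ∧ m z ≠ 0}.Countable)
    (hi : {z | z ∈ ball (0 : ℂ) 1 ∧ m z ≠ 0}.Infinite) :
    ∃ Z : ℕ → ℂ, (∀ i, Z i ∈ ball (0 : ℂ) 1) ∧
      ∀ z ∈ ball (0 : ℂ) 1, {i | Z i = z}.encard = m z := by
  classical
  set S : Set (ℂ × ℕ) := {x | x.1 ∈ ball (0 : ℂ) 1 ∧ x.2 < m x.1} with hS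
  have hSc : S.Countable := by
    refine (hc.prod (countable_univ (α := ℕ))).mono fun x hx => ?_
    refine ⟨⟨hx.1, ?_⟩, mem_univ _⟩
    have := hx.2
    omega
  have hSi : S.Infinite := by
    have h1 : ((fun z : ℂ => (z, 0)) '' {z | z ∈ ball (0 : ℂ) 1 ∧ m z ≠ 0}).Infinite :=
      hi.image fun x _ y _ hxy => congrArg Prod.fst hxy
    refine h1.mono ?_
    rintro x ⟨z, hz, rfl⟩
    exact ⟨hz.1, Nat.pos_of_ne_zero hz.2⟩
  have : Countable S := hSc.to_subtype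
  have : Infinite S := hSi.to_subtype
  obtain ⟨hD⟩ := nonempty_denumerable S
  set e : S ≃ ℕ := Denumerable.eqv S with he
  refine ⟨fun i => (e.symm i).1.1, fun i => (e.symm i).2.1, fun z hz => ?_⟩
  have h1 : {i | (e.symm i).1.1 = z} = e '' {x : S | x.1.1 = z} := by
    ext i
    simp only [mem_ofPred_eq, mem_image]
    constructor
    · intro h
      exact ⟨e.symm i, h, e.apply_symm_apply i⟩
    · rintro ⟨x, hx, rfl⟩
      rwa [e.symm_apply_apply]
  have h2 : (Subtype.val '' {x : S | x.1.1 = z}) = (fun i : ℕ => (z, i)) '' (Iio (m z)) := by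
    ext x
    simp only [mem_image, mem_ofPred_eq, mem_Iio, Subtype.exists, exists_and_right, exists_eq_right]
    constructor
    · rintro ⟨hx, hxz⟩
      refine ⟨x.2, ?_, ?_⟩
      · rw [← hxz]; exact hx.2
      · rw [← hxz]
    · rintro ⟨i, hi, rfl⟩
      exact ⟨⟨hz, hi⟩, rfl⟩
  rw [h1, e.injective.encard_image, ← Subtype.val_injective.encard_image, h2,
    Function.Injective.encard_image (fun a b h => congrArg Prod.snd h)]
  have h3 : (Iio (m z) : Set ℕ) = ((Finset.range (m z) : Finset ℕ) : Set ℕ) := by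
    ext; simp
  rw [h3, Set.encard_coe_eq_coe_finsetCard, Finset.card_range]

/-- the separating sequence -/
theorem exists_sequence {p q α β : ℝ} (hp : 0 < p) (hpq : p < q) (hα : -1 < α) (hβ : -1 < β)
    (hidx : (α + 1) / p = (β + 1) / q) :
    ∃ Z : ℕ → ℂ, IsZeroSet q β Z ∧ ¬ IsZeroSet p α Z := by
  obtain ⟨f, hf, hf0, hfq, hinf, hfp⟩ :=
    Pool.Agent.Helper50.BG.exists_zero_pattern hp hpq hα hβ hidx
  have h0mem : (0 : ℂ) ∈ ball (0 : ℂ) 1 := by simp
  have hf0' : f 0 ≠ 0 := by rw [hf0]; exact one_ne_zero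
  have hfa : AnalyticOnNhd ℂ f (ball 0 1) := hf.analyticOnNhd isOpen_ball
  have hord : ∀ z ∈ ball (0 : ℂ) 1, analyticOrderAt f z ≠ ⊤ := by
    intro z hz
    refine hfa.analyticOrderAt_ne_top_of_isPreconnected
      (convex_ball (0 : ℂ) 1).isPreconnected h0mem hz ?_
    rw [(hfa 0 h0mem).analyticOrderAt_eq_zero.2 hf0']
    exact ENat.zero_ne_top
  have hset : {z | z ∈ ball (0 : ℂ) 1 ∧ (analyticOrderAt f z).toNat ≠ 0} =
      {z | z ∈ ball (0 : ℂ) 1 ∧ f z = 0} := by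
    ext z
    simp only [mem_ofPred_eq]
    refine and_congr_right fun hz => ?_
    have h1 := (hfa z hz).analyticOrderAt_eq_zero
    obtain ⟨k, hk⟩ := ENat.ne_top_iff_exists.1 (hord z hz)
    rw [← hk] at h1 ⊢
    rw [ENat.toNat_natCast]
    constructor
    · intro hk0
      by_contra hne
      exact hk0 (by exact_mod_cast h1.2 hne)
    · rintro h2 rfl
      exact h1.1 rfl h2
  have hcount : {z | z ∈ ball (0 : ℂ) 1 ∧ f z = 0}.Countable := by
    have h1 : f ⁻¹' {0}ᶜ ∈ codiscreteWithin (ball (0 : ℂ) 1) :=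
      hfa.preimage_zero_mem_codiscreteWithin (x := 0) hf0' h0mem
        ⟨⟨0, h0mem⟩, (convex_ball (0 : ℂ) 1).isPreconnected⟩
    have h2 : {z | z ∈ ball (0 : ℂ) 1 ∧ f z = 0} = (f ⁻¹' {0}ᶜ)ᶜ ∩ ball (0 : ℂ) 1 := by
      ext z
      simp [and_comm]
    have h3 : DiscreteTopology ↑((f ⁻¹' {0}ᶜ)ᶜ ∩ ball (0 : ℂ) 1) :=
      isDiscrete_iff_discreteTopology.mp
        (isDiscrete_of_codiscreteWithin ((compl_compl (f ⁻¹' {0}ᶜ)).symm ▸ h1))
    rw [h2]
    exact TopologicalSpace.separableSpace_iff_countable.1 inferInstance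
  obtain ⟨Z, hZ, hZ2⟩ := exists_seq (fun z => (analyticOrderAt f z).toNat)
    (by rw [hset]; exact hcount) (by rw [hset]; exact hinf)
  have hZ3 : ∀ z ∈ ball (0 : ℂ) 1, {i | Z i = z}.encard = analyticOrderAt f z := by
    intro z hz
    rw [hZ2 z hz]
    exact ENat.natCast_toNat (hord z hz)
  refine ⟨Z, ⟨hZ, f, ⟨hf, hfq⟩, ⟨0, h0mem, hf0'⟩, fun z hz => (hZ3 z hz).symm⟩, ?_⟩
  rintro ⟨-, g, ⟨hg1, hg2⟩, -, hg3⟩
  exact hg2.ne (hfp g hg1 fun z hz => by rw [hg3 z hz, hZ3 z hz])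

/-- Let `p, q > 0`, `α, β > -1` with `(α + 1) / p = (β + 1) / q`. If `p < q`, there is a sequence
that is a zero set of `A^q_β` and not of `A^p_α`; so the spaces `A^p_α` and `A^q_β` have the same
zero sets only if `p = q` and `α = β`. -/
theorem result (p q α β : ℝ) (hp : 0 < p) (hq : 0 < q) (hα : -1 < α) (hβ : -1 < β)
    (hidx : (α + 1) / p = (β + 1) / q) :
    (p < q → ∃ Z : ℕ → ℂ, IsZeroSet q β Z ∧ ¬ IsZeroSet p α Z) ∧
    ((∀ Z : ℕ → ℂ, IsZeroSet p α Z ↔ IsZeroSet q β Z) ↔ p = q ∧ α = β) := by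
  refine ⟨fun h => exists_sequence hp h hα hβ hidx, fun h => ?_, ?_⟩
  · rcases lt_trichotomy p q with h1 | h1 | h1
    · obtain ⟨Z, hZ1, hZ2⟩ := exists_sequence hp h1 hα hβ hidx
      exact absurd ((h Z).2 hZ1) hZ2
    · refine ⟨h1, ?_⟩
      subst h1
      have := (div_left_inj' hp.ne').1 hidx
      linarith
    · obtain ⟨Z, hZ1, hZ2⟩ := exists_sequence hq h1 hβ hα hidx.symm
      exact absurd ((h Z).1 hZ1) hZ2
  · rintro ⟨rfl, rfl⟩ Z
    exact Iff.rfl

end Pool.Agent.Results.MP_2b4eae_an.Full
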